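import Pool.Agent.P.MP_2806c7_co.Prime

/-!
# The linear splitting statement for any number of children, and the vertex argument
-/

namespace Pool.Agent.P.MP_2806c7_co

open Finset

theorem Split.equiv {C C' : Type} [Fintype C] [Fintype C'] (h : Split C) (e : C ≃ C') :
    Split C' := by
  intro κ _ _ m q v M hM
  rw [← Fintype.card_congr e] at hM
  obtain ⟨x, h1, h2, h3, h4⟩ := h κ m q v M hM
  refine ⟨fun c => x (e.symm c), fun c k => h1 _ _, fun k => ?_, fun c c' j => h3 _ _ _,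
    fun c => h4 _⟩
  rw [Equiv.sum_comp e.symm (fun c => x c k)]
  exact h2 k

theorem split_one : Split (Fin 1) := by
  intro κ _ _ m q v M hM
  refine ⟨fun _ k => if k ∈ M then 1 else 0, fun c k => ?_, fun k => by simp, fun c c' j => rfl,
    fun c => ⟨M, by simpa using hM, fun k hk => by simp [hk]⟩⟩
  beta_reduce
  split_ifs <;> norm_num

theorem Split.prod {C C' : Type} [Fintype C] [Fintype C'] (h : Split C) (h' : Split C')
    (hC : 0 < Fintype.card C) (hC' : 0 < Fintype.card C') : Split (C × C') := by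
  intro κ _ _ m q v M hM
  rw [Fintype.card_prod] at hM
  set r := Fintype.card C with hr
  set r' := Fintype.card C' with hr'
  obtain ⟨x, h1, h2, h3, h4⟩ := h κ m (r' * q + m * (r' - 1)) v M (by
    refine le_trans (le_of_eq ?_) hM
    rw [← hr]
    obtain ⟨a, ha⟩ : ∃ a, r = a + 1 := ⟨r - 1, by omega⟩
    obtain ⟨b, hb⟩ : ∃ b, r' = b + 1 := ⟨r' - 1, by omega⟩
    have : r * r' - 1 = a * b + a + b := by
      rw [ha, hb]
      have : (a + 1) * (b + 1) = a * b + a + b + 1 := by ring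
      omega
    rw [this, ha, hb]
    simp only [Nat.add_sub_cancel]
    ring)
  choose S hS hS' using h4
  have h5 := fun a => h' κ m q v (S a) (hS a)
  choose y g1 g2 g3 g4 using h5
  have hr0 : (0 : ℝ) < r' := by exact_mod_cast hC'
  have hle : ∀ a k, ∑ b, y a b k ≤ x a k := by
    intro a k
    have := g2 a k
    split_ifs at this with hk
    · rw [hS' a k hk]; exact this
    · exact this.trans (h1 a k)
  refine ⟨fun c k => y c.1 c.2 k + (x c.1 k - ∑ b, y c.1 b k) / r', fun c k => ?_, fun k => ?_,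
    fun c c' j => ?_, fun c => ?_⟩
  · have := g1 c.1 c.2 k
    have := sub_nonneg.2 (hle c.1 k)
    positivity
  · refine le_trans (le_of_eq ?_) (h2 k)
    rw [Fintype.sum_prod_type]
    refine sum_congr rfl fun a _ => ?_
    simp only [sum_add_distrib, sum_const, card_univ, nsmul_eq_mul, ← hr']
    field_simp
    ring
  · have key : ∀ c : C × C', ∑ k, (y c.1 c.2 k + (x c.1 k - ∑ b, y c.1 b k) / r') * v k j =
        (∑ k, x c.1 k * v k j) / r' := by
      rintro ⟨a, b⟩
      have e1 : ∑ k, (∑ b', y a b' k) * v k j = r' * ∑ k, y a b k * v k j := by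
        simp only [sum_mul]
        rw [sum_comm, sum_congr rfl (fun b' _ => g3 a b' b j), sum_const, card_univ, nsmul_eq_mul]
      have e2 : ∀ k, (y a b k + (x a k - ∑ b, y a b k) / r') * v k j =
          y a b k * v k j + (x a k * v k j - (∑ b', y a b' k) * v k j) / r' := by
        intro k; ring
      simp only [e2, sum_add_distrib, ← sum_div, sum_sub_distrib, e1]
      field_simp
      ring
    rw [key, key, h3]
  · obtain ⟨T, hT, hT'⟩ := g4 c.1 c.2
    refine ⟨T, hT, fun k hk => ?_⟩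
    have e1 := hT' k hk
    have e2 : y c.1 c.2 k ≤ ∑ b, y c.1 b k :=
      single_le_sum (f := fun b => y c.1 b k) (fun b _ => g1 c.1 b k) (mem_univ _)
    have e3 : x c.1 k ≤ ∑ a, x a k :=
      single_le_sum (f := fun a => x a k) (fun a _ => h1 a k) (mem_univ _)
    have e4 : ∑ a, x a k ≤ 1 := (h2 k).trans (by split_ifs <;> norm_num)
    have e5 := hle c.1 k
    have e6 : x c.1 k - ∑ b, y c.1 b k = 0 := by linarith
    simp [e1, e6]

theorem split_fin (r : ℕ) (hr : 0 < r) : Split (Fin r) := by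
  induction r using induction_on_primes with
  | zero => omega
  | one => exact split_one
  | prime_mul p a hp ih =>
    have ha : 0 < a := Nat.pos_of_mul_pos_left hr
    have : Fact p.Prime := ⟨hp⟩
    refine ((split_prime p).prod (ih ha) (by simp [hp.pos]) (by simpa using ha)).equiv ?_
    exact Fintype.equivFinOfCardEq (by simp)

/-- A fair fractional distribution in which every child has `q` full cookies. -/
theorem exists_fair {κ : Type} [Fintype κ] [DecidableEq κ] (r m q : ℕ) (hr : 0 < r)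
    (v : κ → Fin m → ℝ) (h : q = 0 ∨ r * q + m * (r - 1) ≤ Fintype.card κ) :
    ∃ x : Fin r → κ → ℝ, (∀ c k, 0 ≤ x c k) ∧ (∀ k, ∑ c, x c k = 1) ∧
      (∀ c j, ∑ k, x c k * v k j = (∑ k, v k j) / r) ∧
      ∀ c, ∃ S : Finset κ, q ≤ S.card ∧ ∀ k ∈ S, x c k = 1 := by
  have hr0 : (0 : ℝ) < r := by exact_mod_cast hr
  rcases h with rfl | h
  · refine ⟨fun _ _ => 1 / r, fun _ _ => by positivity, fun k => ?_, fun c j => ?_,
      fun c => ⟨∅, by simp, by simp⟩⟩
    · simp only [sum_const, card_univ, Fintype.card_fin, nsmul_eq_mul]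
      field_simp
    · rw [← mul_sum]; field_simp
  obtain ⟨y, g1, g2, g3, g4⟩ := split_fin r hr κ m q v univ (by simpa using h)
  simp only [mem_univ, if_true] at g2
  refine ⟨fun c k => y c k + (1 - ∑ b, y b k) / r, fun c k => ?_, fun k => ?_, fun c j => ?_,
    fun c => ?_⟩
  · have := g1 c k
    have := sub_nonneg.2 (g2 k)
    positivity
  · simp only [sum_add_distrib, sum_const, card_univ, nsmul_eq_mul, Fintype.card_fin]
    field_simp
    ring
  · have e1 : ∑ k, (∑ b', y b' k) * v k j = r * ∑ k, y c k * v k j := by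
      simp only [sum_mul]
      rw [sum_comm, sum_congr rfl (fun b' _ => g3 b' c j), sum_const, card_univ, nsmul_eq_mul,
        Fintype.card_fin]
    have e2 : ∀ k, (y c k + (1 - ∑ b, y b k) / r) * v k j =
        y c k * v k j + (v k j - (∑ b', y b' k) * v k j) / r := by
      intro k; ring
    simp only [e2, sum_add_distrib, ← sum_div, sum_sub_distrib, e1]
    field_simp
    ring
  · obtain ⟨T, hT, hT'⟩ := g4 c
    refine ⟨T, hT, fun k hk => ?_⟩
    have e1 := hT' k hk
    have e2 : y c k ≤ ∑ b, y b k :=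
      single_le_sum (f := fun b => y b k) (fun b _ => g1 b k) (mem_univ _)
    have e5 := g2 k
    have e6 : 1 - ∑ b, y b k = 0 := by linarith
    simp [e1, e6]

/-- One step of the vertex argument. -/
theorem vertex_step {κ : Type} [Fintype κ] [DecidableEq κ] {r m : ℕ} (hr : 0 < r)
    (v : κ → Fin m → ℝ) (x : Fin r → κ → ℝ) (h1 : ∀ c k, 0 ≤ x c k) (h2 : ∀ k, ∑ c, x c k = 1)
    (N : Finset κ) (hN : ∀ k ∈ N, ∀ c, x c k ≠ 1) (hcard : (r - 1) * m < N.card) :
    ∃ x' : Fin r → κ → ℝ, (∀ c k, 0 ≤ x' c k) ∧ (∀ k, ∑ c, x' c k = 1) ∧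
      (∀ c j, ∑ k, x' c k * v k j = ∑ k, x c k * v k j) ∧ (∀ c k, k ∉ N → x' c k = x c k) ∧
      (∀ c k, x c k = 0 → x' c k = 0) ∧ ∃ c k, x c k ≠ 0 ∧ x' c k = 0 := by
  let c0 : Fin r := ⟨0, hr⟩
  have hab : ∀ k : N, ∃ a b : Fin r, a ≠ b ∧ x a k ≠ 0 ∧ x b k ≠ 0 := by
    rintro ⟨k, hk⟩
    obtain ⟨a, -, ha⟩ := exists_ne_zero_of_sum_ne_zero (s := univ) (f := fun c => x c k)
      (by rw [h2]; norm_num)
    by_contra hcon
    push Not at hcon
    apply hN k hk a
    rw [← h2 k, sum_eq_single a (fun b _ hb => hcon a b (Ne.symm hb) ha) (by simp)]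
  choose a b hab ha hb using hab
  let ε : N → Fin r → ℝ := fun k c => (if c = a k then 1 else 0) - (if c = b k then 1 else 0)
  have hε : ∀ k, ∑ c, ε k c = 0 := by
    intro k; simp [ε, sum_sub_distrib]
  let u : N → ({c : Fin r // c ≠ c0} × Fin m → ℝ) := fun k i => ε k i.1 * v k i.2
  have hdep : ¬ LinearIndependent ℝ u := by
    intro h
    have := h.fintype_card_le_finrank
    simp [Fintype.card_subtype_compl] at this
    omega
  obtain ⟨t, ht, k0, hk0⟩ := Fintype.not_linearIndependent_iff.1 hdep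
  let d : Fin r → κ → ℝ := fun c k => if h : k ∈ N then t ⟨k, h⟩ * ε ⟨k, h⟩ c else 0
  have hd1 : ∀ k, ∑ c, d c k = 0 := by
    intro k
    by_cases h : k ∈ N
    · simp only [d, dif_pos h]; rw [← mul_sum, hε, mul_zero]
    · simp only [d, dif_neg h, sum_const_zero]
  have hd2 : ∀ c, c ≠ c0 → ∀ j, ∑ k, d c k * v k j = 0 := by
    intro c hc j
    have e1 := congrFun ht (⟨c, hc⟩, j)
    simp only [Finset.sum_apply, Pi.smul_apply, smul_eq_mul, Pi.zero_apply, u] at e1
    rw [← e1, ← sum_subset (subset_univ N), ← sum_coe_sort N]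
    · refine sum_congr rfl fun k _ => ?_
      simp only [d, dif_pos k.2]; ring
    · intro k _ hk
      simp only [d, dif_neg hk, zero_mul]
  have hd3 : ∀ c j, ∑ k, d c k * v k j = 0 := by
    intro c j
    by_cases hc : c = c0
    · have e1 : ∑ c, ∑ k, d c k * v k j = 0 := by
        rw [sum_comm]
        refine sum_eq_zero fun k _ => ?_
        rw [← sum_mul, hd1, zero_mul]
      rw [sum_eq_single c0 (fun c _ hc => hd2 c hc j) (by simp)] at e1
      rw [hc, e1]
    · exact hd2 c hc j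
  have hd4 : ∀ c k, x c k = 0 → d c k = 0 := by
    intro c k h0
    by_cases h : k ∈ N
    · have e1 : c ≠ a ⟨k, h⟩ := fun e => ha ⟨k, h⟩ (e ▸ h0)
      have e2 : c ≠ b ⟨k, h⟩ := fun e => hb ⟨k, h⟩ (e ▸ h0)
      simp [d, dif_pos h, ε, e1, e2]
    · simp only [d, dif_neg h]
  have hneg : (univ.filter fun i : Fin r × κ => d i.1 i.2 < 0).Nonempty := by
    rcases lt_or_gt_of_ne hk0 with h | h
    · refine ⟨(a k0, k0), mem_filter.2 ⟨mem_univ _, ?_⟩⟩
      simpa [d, ε, hab k0] using h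
    · refine ⟨(b k0, k0), mem_filter.2 ⟨mem_univ _, ?_⟩⟩
      simpa [d, ε, (hab k0).symm] using h
  obtain ⟨i0, hi0, hmin⟩ := exists_min_image _ (fun i : Fin r × κ => x i.1 i.2 / (- d i.1 i.2)) hneg
  have hi0' : d i0.1 i0.2 < 0 := (mem_filter.1 hi0).2
  set s := x i0.1 i0.2 / (- d i0.1 i0.2) with hs
  have hs0 : 0 ≤ s := div_nonneg (h1 _ _) (by linarith)
  refine ⟨fun c k => x c k + s * d c k, fun c k => ?_, fun k => ?_, fun c j => ?_,
    fun c k hk => ?_, fun c k h0 => ?_, i0.1, i0.2, fun h0 => hi0'.ne (hd4 _ _ h0), ?_⟩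
  · beta_reduce
    by_cases h : d c k < 0
    · have := hmin (c, k) (mem_filter.2 ⟨mem_univ _, h⟩)
      rw [le_div_iff₀ (by simpa using h)] at this
      simp only at this
      linarith
    · have := h1 c k
      have := mul_nonneg hs0 (not_lt.1 h)
      linarith
  · rw [sum_add_distrib, ← mul_sum, hd1, h2]; simp
  · simp only [add_mul, sum_add_distrib, mul_assoc]
    rw [← mul_sum, hd3]; simp
  · simp only [d, dif_neg hk]; simp
  · simp [h0, hd4 c k h0]
  · have := hi0'.ne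
    simp only [hs]
    field_simp
    ring

theorem exists_vertex {κ : Type} [Fintype κ] [DecidableEq κ] {r m : ℕ} (hr : 0 < r)
    (v : κ → Fin m → ℝ) (n : ℕ) : ∀ x : Fin r → κ → ℝ,
    (univ.filter fun i : Fin r × κ => x i.1 i.2 ≠ 0).card ≤ n →
    (∀ c k, 0 ≤ x c k) → (∀ k, ∑ c, x c k = 1) →
    ∃ x' : Fin r → κ → ℝ, (∀ c k, 0 ≤ x' c k) ∧ (∀ k, ∑ c, x' c k = 1) ∧
      (∀ c j, ∑ k, x' c k * v k j = ∑ k, x c k * v k j) ∧ (∀ c k, x c k = 1 → x' c k = 1) ∧
      (univ.filter fun k => ∀ c, x' c k ≠ 1).card ≤ (r - 1) * m := by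
  classical
  induction n using Nat.strong_induction_on with
  | _ n ih =>
    intro x hx h1 h2
    by_cases h : (univ.filter fun k => ∀ c, x c k ≠ 1).card ≤ (r - 1) * m
    · exact ⟨x, h1, h2, fun _ _ => rfl, fun _ _ h => h, h⟩
    · obtain ⟨y, g1, g2, g3, g4, g5, c, k, g6, g7⟩ := vertex_step hr v x h1 h2 _
        (fun k hk => (mem_filter.1 hk).2) (not_le.1 h)
      have hlt : (univ.filter fun i : Fin r × κ => y i.1 i.2 ≠ 0).card <
          (univ.filter fun i : Fin r × κ => x i.1 i.2 ≠ 0).card := by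
        refine card_lt_card ⟨fun i hi => ?_, fun hsub => ?_⟩
        · exact mem_filter.2 ⟨mem_univ _, fun h0 => (mem_filter.1 hi).2 (g5 _ _ h0)⟩
        · exact (mem_filter.1 (hsub (mem_filter.2 ⟨mem_univ (c, k), g6⟩))).2 g7
      obtain ⟨z, e1, e2, e3, e4, e5⟩ := ih _ (lt_of_lt_of_le hlt hx) y le_rfl g1 g2
      refine ⟨z, e1, e2, fun c j => by rw [e3, g3], fun c k h => e4 c k ?_, e5⟩
      rw [g4 c k (fun hk => (mem_filter.1 hk).2 c h), h]

/-- The linear form of the cookie theorem. -/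
theorem linear_cookie {κ : Type} [Fintype κ] [DecidableEq κ] (r m q : ℕ) (hr : 0 < r)
    (v : κ → Fin m → ℝ) (h : q = 0 ∨ r * q + m * (r - 1) ≤ Fintype.card κ) :
    ∃ x : Fin r → κ → ℝ, (∀ c k, 0 ≤ x c k) ∧ (∀ k, ∑ c, x c k = 1) ∧
      (∀ c j, ∑ k, x c k * v k j = (∑ k, v k j) / r) ∧
      (univ.filter fun k => ∀ c, x c k ≠ 1).card ≤ (r - 1) * m ∧
      ∀ c, ∃ S : Finset κ, q ≤ S.card ∧ ∀ k ∈ S, x c k = 1 := by
  obtain ⟨x, h1, h2, h3, h4⟩ := exists_fair r m q hr v h
  obtain ⟨y, g1, g2, g3, g4, g5⟩ := exists_vertex hr v _ x le_rfl h1 h2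
  refine ⟨y, g1, g2, fun c j => by rw [g3, h3], g5, fun c => ?_⟩
  obtain ⟨S, hS, hS'⟩ := h4 c
  exact ⟨S, hS, fun k hk => g4 c k (hS' k hk)⟩

end Pool.Agent.P.MP_2806c7_co
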