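import Pool.Agent.Lib.ZpDold.Join
import Pool.Agent.Lib.ZpDold.Dold

/-!
# The linear splitting statement for a prime number of children
-/

namespace Pool.Agent.P.MP_2806c7_co

set_option linter.unusedSectionVars false

open Finset Pool.Agent.Lib.ZpDold

/-- The linear splitting statement for the set of children `C`. -/
def Split (C : Type) [Fintype C] : Prop :=
  ∀ (κ : Type) [Fintype κ] [DecidableEq κ] (m q : ℕ) (v : κ → Fin m → ℝ) (M : Finset κ),
    Fintype.card C * q + m * (Fintype.card C - 1) ≤ M.card →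
    ∃ x : C → κ → ℝ, (∀ c k, 0 ≤ x c k) ∧ (∀ k, ∑ c, x c k ≤ if k ∈ M then 1 else 0) ∧
      (∀ c c' j, ∑ k, x c k * v k j = ∑ k, x c' k * v k j) ∧
      ∀ c, ∃ S : Finset κ, q ≤ S.card ∧ ∀ k ∈ S, x c k = 1

section prime

variable {p : ℕ} [Fact p.Prime] {κ : Type} [Fintype κ] [DecidableEq κ] {m : ℕ}

/-- The cyclic shift of children. -/
def rot (p : ℕ) (κ : Type) : Equiv.Perm (Finset (κ × ZMod p)) :=
  Equiv.finsetCongr (Equiv.prodCongr (Equiv.refl κ) (Equiv.addRight 1))

omit [Fintype κ] [DecidableEq κ] in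
theorem mem_rot (T : Finset (κ × ZMod p)) (k : κ) (c : ZMod p) :
    (k, c) ∈ rot p κ T ↔ (k, c - 1) ∈ T := by
  simp [rot, Equiv.finsetCongr_apply, mem_map_equiv, sub_eq_add_neg]

omit [Fintype κ] [DecidableEq κ] in
theorem mem_rot_pow (j : ℕ) (T : Finset (κ × ZMod p)) (k : κ) (c : ZMod p) :
    (k, c) ∈ (rot p κ ^ j) T ↔ (k, c - j) ∈ T := by
  induction j generalizing c with
  | zero => simp
  | succ j ih =>
    rw [pow_succ', Equiv.Perm.mul_apply, mem_rot, ih]
    have : c - 1 - (j : ZMod p) = c - ((j + 1 : ℕ) : ZMod p) := by push_cast; ring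
    rw [this]

omit [Fintype κ] [DecidableEq κ] in
theorem rot_pow : rot p κ ^ p = 1 := by
  ext T ⟨k, c⟩
  rw [mem_rot_pow]; simp

omit [Fintype κ] [DecidableEq κ] in
theorem card_rot (T : Finset (κ × ZMod p)) : (rot p κ T).card = T.card := by
  simp [rot, Equiv.finsetCongr_apply]

omit [Fintype κ] [DecidableEq κ] in
theorem rot_mono {T T' : Finset (κ × ZMod p)} (h : T ≤ T') : rot p κ T ≤ rot p κ T' := by
  rintro ⟨k, c⟩ hk
  rw [mem_rot] at hk ⊢
  exact h hk

/-- The cookies given to child `c`. -/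
def part (T : Finset (κ × ZMod p)) (c : ZMod p) : Finset κ := univ.filter fun k => (k, c) ∈ T

theorem part_rot (T : Finset (κ × ZMod p)) (c : ZMod p) :
    part (rot p κ T) c = part T (c - 1) := by
  ext k; simp [part, mem_rot]

theorem card_eq_sum_part (T : Finset (κ × ZMod p)) : T.card = ∑ c, (part T c).card := by
  rw [card_eq_sum_card_fiberwise (f := Prod.snd) (t := univ) (fun _ _ => mem_univ _)]
  refine sum_congr rfl fun c _ => ?_
  refine card_bij (fun x _ => x.1) ?_ ?_ ?_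
  · rintro ⟨k, d⟩ h
    obtain ⟨h1, rfl⟩ := mem_filter.1 h
    simpa [part] using h1
  · rintro ⟨k, d⟩ h ⟨k', d'⟩ h' h''
    obtain ⟨-, h1⟩ := mem_filter.1 h
    obtain ⟨-, h2⟩ := mem_filter.1 h'
    simp only at h1 h2 h''
    rw [h1, h2, h'']
  · intro k hk
    exact ⟨(k, c), mem_filter.2 ⟨by simpa [part] using hk, rfl⟩, rfl⟩

/-- Nonempty partial assignments of the cookies of `M`. -/
def Good (M : Finset κ) (T : Finset (κ × ZMod p)) : Prop :=
  T.Nonempty ∧ (∀ k c c', (k, c) ∈ T → (k, c') ∈ T → c = c') ∧ ∀ k c, (k, c) ∈ T → k ∈ M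

omit [Fintype κ] [DecidableEq κ] in
theorem Good.rot {M : Finset κ} {T : Finset (κ × ZMod p)} (h : Good M T) :
    Good M (rot p κ T) := by
  refine ⟨?_, fun k c c' h1 h2 => ?_, fun k c h1 => ?_⟩
  · rw [← card_pos, card_rot, card_pos]; exact h.1
  · rw [mem_rot] at h1 h2
    simpa using h.2.1 k _ _ h1 h2
  · rw [mem_rot] at h1
    exact h.2.2 k _ h1

/-- The test vector. -/
noncomputable def tv (v : κ → Fin m → ℝ) (q : ℕ) (T : Finset (κ × ZMod p)) (c : ZMod p)
    (o : Option (Fin m)) : ℝ :=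
  if q ≤ (part T c).card then o.elim 1 (fun j => ∑ k ∈ part T c, v k j) else 0

theorem tv_rot (v : κ → Fin m → ℝ) (q : ℕ) (T : Finset (κ × ZMod p)) (c : ZMod p)
    (o : Option (Fin m)) : tv v q (rot p κ T) c o = tv v q T (c - 1) o := by
  simp only [tv, part_rot]

/-- Some convex combination of the test vectors lies on the diagonal. -/
def Diag (v : κ → Fin m → ℝ) (q : ℕ) (σ : Finset (Finset (κ × ZMod p))) : Prop :=
  ∃ w : Finset (κ × ZMod p) → ℝ, (∀ T ∈ σ, 0 ≤ w T) ∧ ∑ T ∈ σ, w T = 1 ∧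
    ∀ c c' o, ∑ T ∈ σ, w T * tv v q T c o = ∑ T ∈ σ, w T * tv v q T c' o

theorem Diag.mono {v : κ → Fin m → ℝ} {q : ℕ} {σ τ : Finset (Finset (κ × ZMod p))}
    (h : Diag v q σ) (hs : σ ⊆ τ) : Diag v q τ := by
  obtain ⟨w, h1, h2, h3⟩ := h
  have key : ∀ f : Finset (κ × ZMod p) → ℝ,
      ∑ T ∈ τ, (if T ∈ σ then w T else 0) * f T = ∑ T ∈ σ, w T * f T := by
    intro f
    rw [← sum_subset hs]
    · exact sum_congr rfl fun T hT => by rw [if_pos hT]
    · intro T _ hT; rw [if_neg hT, zero_mul]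
  refine ⟨fun T => if T ∈ σ then w T else 0, fun T _ => ?_, ?_, fun c c' o => ?_⟩
  · beta_reduce; split_ifs with h
    · exact h1 T h
    · exact le_rfl
  · have := key (fun _ => 1)
    simp only [mul_one] at this
    rw [this, h2]
  · rw [key, key, h3]

theorem Diag.of_rot {v : κ → Fin m → ℝ} {q : ℕ} {σ : Finset (Finset (κ × ZMod p))}
    (h : Diag v q (σ.image (rot p κ))) : Diag v q σ := by
  obtain ⟨w, h1, h2, h3⟩ := h
  have hinj : Set.InjOn (rot p κ) σ := (rot p κ).injective.injOn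
  refine ⟨fun T => w (rot p κ T), fun T hT => h1 _ (mem_image_of_mem _ hT), ?_, fun c c' o => ?_⟩
  · rwa [sum_image hinj] at h2
  · have := h3 (c + 1) (c' + 1) o
    rw [sum_image hinj, sum_image hinj] at this
    simpa [tv_rot] using this

theorem diag_of_fixed (v : κ → Fin m → ℝ) (q : ℕ) {σ : Finset (Finset (κ × ZMod p))}
    (hne : σ.Nonempty) (h : σ.image (rot p κ) = σ) : Diag v q σ := by
  have hinj : Set.InjOn (rot p κ) σ := (rot p κ).injective.injOn
  have hc : (0 : ℝ) < σ.card := by exact_mod_cast card_pos.2 hne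
  have h1 : ∀ c o, ∑ T ∈ σ, tv v q T (c + 1) o = ∑ T ∈ σ, tv v q T c o := by
    intro c o
    conv_lhs => rw [← h, sum_image hinj]
    simp [tv_rot]
  have h2 : ∀ (j : ℕ) o, ∑ T ∈ σ, tv v q T (j : ZMod p) o = ∑ T ∈ σ, tv v q T 0 o := by
    intro j o
    induction j with
    | zero => simp
    | succ j ih => push_cast; rw [h1, ih]
  refine ⟨fun _ => (σ.card : ℝ)⁻¹, fun _ _ => by positivity, ?_, fun c c' o => ?_⟩
  · rw [sum_const, nsmul_eq_mul, mul_inv_cancel₀ hc.ne']
  · rw [← mul_sum, ← mul_sum, ← ZMod.natCast_zmod_val c, ← ZMod.natCast_zmod_val c', h2, h2]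

/-- The reduced test vector. -/
noncomputable def rv (v : κ → Fin m → ℝ) (q : ℕ) (T : Finset (κ × ZMod p)) :
    EuclideanSpace ℝ ({c : ZMod p // c ≠ 0} × Option (Fin m)) :=
  WithLp.toLp 2 fun i => tv v q T i.1 i.2 - tv v q T 0 i.2

theorem diag_iff (v : κ → Fin m → ℝ) (q : ℕ) (σ : Finset (Finset (κ × ZMod p))) :
    Diag v q σ ↔ 0 ∈ convexHull ℝ (rv v q '' (σ : Set (Finset (κ × ZMod p)))) := by
  rw [mem_hull_iff]
  refine exists_congr fun w => and_congr_right fun _ => and_congr_right fun _ => ?_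
  have key : ∀ i, (∑ T ∈ σ, w T • rv v q T) i =
      ∑ T ∈ σ, w T * tv v q T i.1 i.2 - ∑ T ∈ σ, w T * tv v q T 0 i.2 := by
    intro i
    simp [rv, mul_sub, sum_sub_distrib]
  constructor
  · intro h
    ext i
    rw [key, h _ 0]; simp
  · intro h
    have h1 : ∀ c o, ∑ T ∈ σ, w T * tv v q T c o = ∑ T ∈ σ, w T * tv v q T 0 o := by
      intro c o
      by_cases hc : c = 0
      · rw [hc]
      · have := key (⟨c, hc⟩, o)
        rw [h] at this
        simp only [PiLp.zero_apply] at this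
        linarith
    intro c c' o
    rw [h1 c, h1 c']

/-- A diagonal point on a chain of large assignments gives a solution. -/
theorem solution_of_diag {v : κ → Fin m → ℝ} {q : ℕ} {M : Finset κ}
    {σ : Finset (Finset (κ × ZMod p))} (hG : ∀ T ∈ σ, Good M T ∧ p * (q - 1) < T.card)
    (hch : ∀ T ∈ σ, ∀ T' ∈ σ, T ≤ T' ∨ T' ≤ T) (h : Diag v q σ) :
    ∃ x : ZMod p → κ → ℝ, (∀ c k, 0 ≤ x c k) ∧ (∀ k, ∑ c, x c k ≤ if k ∈ M then 1 else 0) ∧
      (∀ c c' j, ∑ k, x c k * v k j = ∑ k, x c' k * v k j) ∧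
      ∀ c, ∃ S : Finset κ, q ≤ S.card ∧ ∀ k ∈ S, x c k = 1 := by
  obtain ⟨w, h1, h2, h3⟩ := h
  have hne : (σ.filter fun T => w T ≠ 0).Nonempty := by
    obtain ⟨T, hT, hT'⟩ := exists_ne_zero_of_sum_ne_zero (s := σ) (f := w) (by rw [h2]; norm_num)
    exact ⟨T, mem_filter.2 ⟨hT, hT'⟩⟩
  obtain ⟨T1, hT1, hmin⟩ := exists_min_image _ (fun T : Finset (κ × ZMod p) => T.card) hne
  obtain ⟨hT1σ, hT1w⟩ := mem_filter.1 hT1
  have hsub : ∀ T ∈ σ, w T ≠ 0 → T1 ⊆ T := by
    intro T hT hw
    rcases hch T1 hT1σ T hT with h | h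
    · exact h
    · exact (eq_of_subset_of_card_le h (hmin T (mem_filter.2 ⟨hT, hw⟩))).ge
  have hpart : ∀ T ∈ σ, w T ≠ 0 → ∀ c, part T1 c ⊆ part T c := by
    intro T hT hw c k hk
    simp only [part, mem_filter, mem_univ, true_and] at hk ⊢
    exact hsub T hT hw hk
  obtain ⟨c0, hc0⟩ : ∃ c0, q ≤ (part T1 c0).card := by
    by_contra hcon
    push Not at hcon
    have h4 := (hG T1 hT1σ).2
    rw [card_eq_sum_part] at h4
    have h5 : ∑ c, (part T1 c).card ≤ ∑ _c : ZMod p, (q - 1) :=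
      sum_le_sum fun c _ => by have := hcon c; omega
    rw [sum_const, card_univ, ZMod.card, smul_eq_mul] at h5
    omega
  have hall : ∀ T ∈ σ, w T ≠ 0 → ∀ c, q ≤ (part T c).card := by
    intro T hT hw c
    have h4 : ∑ T ∈ σ, w T * tv v q T c0 none = ∑ T ∈ σ, w T := by
      refine sum_congr rfl fun T hT => ?_
      by_cases hw : w T = 0
      · simp [hw]
      · simp [tv, hc0.trans (card_le_card (hpart T hT hw c0))]
    rw [← h3 c c0] at h4
    have h5 : ∀ T ∈ σ, w T * tv v q T c none ≤ w T := by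
      intro T hT
      have := h1 T hT
      simp only [tv]; split_ifs <;> simp [this]
    have h6 := (sum_eq_sum_iff_of_le h5).1 h4 T hT
    by_contra hcon
    simp [tv, hcon] at h6
    exact hw h6.symm
  refine ⟨fun c k => ∑ T ∈ σ, if (k, c) ∈ T then w T else 0, fun c k => ?_, fun k => ?_,
    fun c c' j => ?_, fun c => ⟨part T1 c, hall T1 hT1σ hT1w c, fun k hk => ?_⟩⟩
  · refine sum_nonneg fun T hT => ?_
    split_ifs
    · exact h1 T hT
    · exact le_rfl
  · rw [sum_comm]
    split_ifs with hk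
    · rw [← h2]
      refine sum_le_sum fun T hT => ?_
      by_cases hc : ∃ c, (k, c) ∈ T
      · obtain ⟨c, hc⟩ := hc
        rw [sum_eq_single c, if_pos hc]
        · intro c' _ hc'
          rw [if_neg (fun h => hc' ((hG T hT).1.2.1 k _ _ h hc))]
        · simp
      · push Not at hc
        simp [hc, h1 T hT]
    · refine le_of_eq (sum_eq_zero fun T hT => sum_eq_zero fun c _ => ?_)
      rw [if_neg (fun h => hk ((hG T hT).1.2.2 k c h))]
  · have key : ∀ c, ∑ k, (∑ T ∈ σ, if (k, c) ∈ T then w T else 0) * v k j =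
        ∑ T ∈ σ, w T * tv v q T c (some j) := by
      intro c
      simp only [sum_mul]
      rw [sum_comm]
      refine sum_congr rfl fun T hT => ?_
      by_cases hw : w T = 0
      · simp [hw]
      · rw [tv, if_pos (hall T hT hw c), Option.elim_some, part, sum_filter, mul_sum]
        refine sum_congr rfl fun k _ => ?_
        split_ifs <;> simp
    rw [key, key, h3]
  · rw [← h2]
    refine sum_congr rfl fun T hT => ?_
    by_cases hw : w T = 0
    · simp [hw]
    · have := hpart T hT hw c hk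
      simp only [part, mem_filter, mem_univ, true_and] at this
      rw [if_pos this]

end prime

theorem split_prime (p : ℕ) [hp : Fact p.Prime] : Split (ZMod p) := by
  intro κ _ _ m q v M hM
  rw [ZMod.card] at hM
  rcases Nat.eq_zero_or_pos q with rfl | hq
  · refine ⟨fun _ _ => 0, fun _ _ => le_rfl, fun k => ?_, by simp, fun c => ⟨∅, by simp, by simp⟩⟩
    split_ifs <;> simp
  by_contra hno
  have hp2 := hp.out.two_le
  set α := p * (q - 1) with hα
  set n := M.card with hn
  set D := (p - 1) * (m + 1) with hD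
  have hnD : α + D + 1 ≤ n := by
    obtain ⟨q', rfl⟩ : ∃ q', q = q' + 1 := ⟨q - 1, by omega⟩
    obtain ⟨p', rfl⟩ : ∃ p', p = p' + 1 := ⟨p - 1, by omega⟩
    simp only [Nat.add_sub_cancel] at hα hD hM
    rw [hα, hD]; nlinarith
  let ι : Fin n → κ := fun i => (M.equivFin.symm i : κ)
  have hι : Function.Injective ι := fun i j h =>
    M.equivFin.symm.injective (Subtype.ext h)
  have hιM : ∀ i, ι i ∈ M := fun i => (M.equivFin.symm i).2
  let P : ℕ → Finset (κ × ZMod p) → Prop := fun s T =>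
    Good M T ∧ ∀ k c, (k, c) ∈ T → ∃ i : Fin n, i.val < s ∧ ι i = k
  let Y : ℕ → Finset (Finset (κ × ZMod p)) → Prop :=
    Levels (Good M) card α (fun σ => ¬ Diag v q σ)
  have hPY : ∀ s σ, Ch (P s) σ → Y 0 σ := by
    intro s σ h
    refine ⟨fun T hT => ⟨(h.1 T hT).1, card_pos.2 (h.1 T hT).1.1⟩, fun T hT T' hT' _ h2 => ?_,
      fun hd => hno ?_⟩
    · rcases h.2 T hT T' hT' with h3 | h3
      · exact eq_of_subset_of_card_le h3 h2.ge
      · exact (eq_of_subset_of_card_le h3 h2.le).symm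
    · exact solution_of_diag (fun T hT => ⟨(h.1 T (mem_filter.1 hT).1).1, (mem_filter.1 hT).2⟩)
        (fun T hT T' hT' => h.2 T (mem_filter.1 hT).1 T' (mem_filter.1 hT').1) hd
  have hYinv : ∀ σ, Y 0 σ → Y 0 (σ.image (rot p κ)) := by
    rintro σ ⟨h1, h2, h3⟩
    refine ⟨fun T hT => ?_, fun T hT T' hT' h4 h5 => ?_, fun hd => h3 (Diag.of_rot ?_)⟩
    · obtain ⟨T, hT1, rfl⟩ := mem_image.1 hT
      exact ⟨(h1 T hT1).1.rot, by rw [card_rot]; exact (h1 T hT1).2⟩
    · obtain ⟨T, hT1, rfl⟩ := mem_image.1 hT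
      obtain ⟨T', hT2, rfl⟩ := mem_image.1 hT'
      rw [card_rot] at h4
      rw [card_rot, card_rot] at h5
      rw [h2 T hT1 T' hT2 h4 h5]
    · rw [filter_image] at hd
      simpa only [card_rot] using hd
  have hYY : ∀ s, α + D ≤ s → Bounds (ZMod p) (Y 0) (Y 0) (s + 1) := by
    intro s hs
    refine bounds_levels (Good M) card α _ D (fun s hs => ?_) α 0 (by omega) s (by omega)
    classical
    refine (bounds_hull (rv v q) D (univ.filter fun T => Good M T ∧ α < T.card) 0 ⊤ ?_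
      (fun _ _ => Submodule.mem_top) s hs).mono ?_ ?_
    · rw [finrank_top, finrank_euclideanSpace]
      simp [hD, Fintype.card_subtype_compl]
    · rintro σ ⟨h1, -, h3⟩
      refine ⟨fun T hT => mem_filter.2 ⟨mem_univ _, h1 T hT⟩, ?_⟩
      rw [filter_true_of_mem (fun T hT => (h1 T hT).2)] at h3
      rwa [← diag_iff]
    · rintro σ ⟨h1, h3⟩
      have h2 : ∀ T ∈ σ, Good M T ∧ α < T.card := fun T hT => (mem_filter.1 (h1 hT)).2
      refine ⟨h2, fun T hT T' _ h4 _ => absurd (h2 T hT).2 (by omega), ?_⟩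
      rw [filter_true_of_mem (fun T hT => (h2 T hT).2)]
      exact fun hd => h3 ((diag_iff v q σ).1 hd)
  refine dold hp.out (rot_pow (p := p) (κ := κ)) (Y 0) ?_ hYinv ?_
    (fun s σ => if s ≤ n then Ch (P s) σ else Y 0 σ) ?_ ?_ {(ι ⟨0, by omega⟩, 0)} ?_ ?_
  · rintro σ τ ⟨h1, h2, h3⟩ h
    exact ⟨fun T hT => h1 T (h hT), fun T hT T' hT' => h2 T (h hT) T' (h hT'),
      fun hd => h3 (hd.mono (filter_subset_filter _ h))⟩
  · rintro σ ⟨h1, h2, h3⟩ hne h
    have hbig : ∀ T ∈ σ, α < T.card := by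
      intro T hT
      by_contra hc
      have h4 := h2 T hT (rot p κ T) (h ▸ mem_image_of_mem _ hT) (by omega) (card_rot T).symm
      obtain ⟨⟨k, c⟩, hk⟩ := (h1 T hT).1.1
      have h5 : (k, c + 1) ∈ rot p κ T := by rw [mem_rot]; simpa using hk
      rw [← h4] at h5
      have := (h1 T hT).1.2.1 k _ _ hk h5
      simp at this
    rw [filter_true_of_mem hbig] at h3
    exact h3 (diag_of_fixed v q hne h)
  · intro s σ h
    split_ifs at h
    · exact hPY s σ h
    · exact h
  · intro s σ h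
    split_ifs at h ⊢
    · refine ⟨fun T hT => ?_, fun T hT T' hT' => ?_⟩
      · obtain ⟨T, hT1, rfl⟩ := mem_image.1 hT
        refine ⟨(h.1 T hT1).1.rot, fun k c hk => ?_⟩
        rw [mem_rot] at hk
        exact (h.1 T hT1).2 k _ hk
      · obtain ⟨T, hT1, rfl⟩ := mem_image.1 hT
        obtain ⟨T', hT2, rfl⟩ := mem_image.1 hT'
        exact (h.2 T hT1 T' hT2).imp rot_mono rot_mono
    · exact hYinv σ h
  · rw [if_pos (by omega)]
    refine ⟨fun T hT => ?_, fun T hT T' hT' => ?_⟩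
    · rw [mem_singleton.1 hT]
      refine ⟨⟨singleton_nonempty _, fun k c c' h1 h2 => ?_, fun k c h1 => ?_⟩,
        fun k c h1 => ?_⟩
      · simp only [mem_singleton, Prod.mk.injEq] at h1 h2
        rw [h1.2, h2.2]
      · simp only [mem_singleton, Prod.mk.injEq] at h1
        rw [h1.1]; exact hιM _
      · simp only [mem_singleton, Prod.mk.injEq] at h1
        exact ⟨_, by simp, h1.1.symm⟩
    · rw [mem_singleton.1 hT, mem_singleton.1 hT']; exact Or.inl le_rfl
  · intro s hs
    obtain ⟨s, rfl⟩ : ∃ s', s = s' + 1 := ⟨s - 1, by omega⟩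
    by_cases hsn : s + 1 + 1 ≤ n
    · simp only [if_pos hsn, if_pos (show s + 1 ≤ n by omega)]
      let k0 : κ := ι ⟨s + 1, by omega⟩
      have hk0 : ∀ T, P (s + 1) T → ∀ c, (k0, c) ∉ T := by
        intro T hT c hc
        obtain ⟨i, hi, hi'⟩ := hT.2 _ _ hc
        have := congrArg Fin.val (hι hi')
        simp at this; omega
      refine (bounds_poset (P (s + 1)) (fun T => P (s + 1 + 1) T ∧ (k0, 0) ∈ T)
        (fun T => insert (k0, 0) T) {(k0, 0)} ?_ ?_ ?_ ?_ ?_ s).mono (fun σ h => h) ?_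
      · intro T hT
        refine ⟨⟨⟨⟨insert_nonempty _ _, fun k c c' h1 h2 => ?_, fun k c h1 => ?_⟩,
          fun k c h1 => ?_⟩, mem_insert_self _ _⟩, subset_insert _ _⟩
        · rcases mem_insert.1 h1 with h1 | h1 <;> rcases mem_insert.1 h2 with h2 | h2
          · simp only [Prod.mk.injEq] at h1 h2
            rw [h1.2, h2.2]
          · simp only [Prod.mk.injEq] at h1
            rw [h1.1] at h2
            exact absurd h2 (hk0 T hT _)
          · simp only [Prod.mk.injEq] at h2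
            rw [h2.1] at h1
            exact absurd h1 (hk0 T hT _)
          · exact hT.1.2.1 k c c' h1 h2
        · rcases mem_insert.1 h1 with h1 | h1
          · simp only [Prod.mk.injEq] at h1
            rw [h1.1]; exact hιM _
          · exact hT.1.2.2 k c h1
        · rcases mem_insert.1 h1 with h1 | h1
          · simp only [Prod.mk.injEq] at h1
            exact ⟨_, by simp, h1.1.symm⟩
          · obtain ⟨i, hi, hi'⟩ := hT.2 k c h1
            exact ⟨i, by omega, hi'⟩
      · intro T T' _ h2 h3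
        exact insert_subset h2.2 h3
      · refine ⟨⟨⟨singleton_nonempty _, fun k c c' h1 h2 => ?_, fun k c h1 => ?_⟩,
          fun k c h1 => ?_⟩, mem_singleton_self _⟩
        · simp only [mem_singleton, Prod.mk.injEq] at h1 h2
          rw [h1.2, h2.2]
        · simp only [mem_singleton, Prod.mk.injEq] at h1
          rw [h1.1]; exact hιM _
        · simp only [mem_singleton, Prod.mk.injEq] at h1
          exact ⟨_, by simp, h1.1.symm⟩
      · intro T hT
        exact singleton_subset_iff.2 hT.2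
      · intro T hT h
        exact hk0 T hT 0 h.2
      · intro σ h
        refine ⟨fun T hT => ?_, h.2⟩
        rcases h.1 T hT with h1 | h1
        · refine ⟨h1.1, fun k c hk => ?_⟩
          obtain ⟨i, hi, hi'⟩ := h1.2 k c hk
          exact ⟨i, by omega, hi'⟩
        · exact h1.1
    · simp only [if_neg hsn]
      refine (hYY s (by omega)).mono (fun σ h => ?_) (fun σ h => h)
      split_ifs at h
      · exact hPY _ σ h
      · exact h

end Pool.Agent.P.MP_2806c7_co
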